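import Mathlib
import Pool.Agent.W669.GelA1
import Pool.Agent.W85.GelA2

/-!
# Gel'fond's transcendence criterion with separate bounds for degree and height (GEL2-A)
-/

set_option autoImplicit false

open Filter Polynomial
open Pool.Agent.W669.GelA1 Pool.Agent.W85.GelA2

namespace Pool.Agent.W376.GelA

/-- logarithmic Mahler measure -/
noncomputable def hh (P : Polynomial ℤ) : ℝ :=
  Real.log (P.map (Int.castRingHom ℂ)).mahlerMeasure

theorem hh_nonneg {P : Polynomial ℤ} (hP : P ≠ 0) : 0 ≤ hh P := Real.log_nonneg (mm_ge hP)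

theorem hh_mul {P Q : Polynomial ℤ} (hP : P ≠ 0) (hQ : Q ≠ 0) : hh (P * Q) = hh P + hh Q := by
  unfold hh
  rw [Polynomial.map_mul, mahlerMeasure_mul,
    Real.log_mul (by linarith [mm_ge hP]) (by linarith [mm_ge hQ])]

/-- the weight `t deg + d h` -/
noncomputable def ww (t d : ℝ) (P : Polynomial ℤ) : ℝ := t * P.natDegree + d * hh P

theorem ww_nonneg {t d : ℝ} (ht : 0 ≤ t) (hd : 0 ≤ d) {P : Polynomial ℤ} (hP : P ≠ 0) :
    0 ≤ ww t d P := by
  unfold ww
  have := hh_nonneg hP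
  positivity

theorem ww_mul (t d : ℝ) {P Q : Polynomial ℤ} (hP : P ≠ 0) (hQ : Q ≠ 0) :
    ww t d (P * Q) = ww t d P + ww t d Q := by
  unfold ww
  rw [natDegree_mul hP hQ, hh_mul hP hQ]
  push_cast
  ring

theorem hh_one : hh 1 = 0 := by
  unfold hh
  simp

theorem ww_one (t d : ℝ) : ww t d 1 = 0 := by
  unfold ww
  rw [hh_one]
  simp

theorem hh_neg (P : Polynomial ℤ) : hh (-P) = hh P := by
  by_cases hP : P = 0
  · subst hP; simp
  have h1 : hh (-1 : Polynomial ℤ) = 0 := by
    have := hh_mul (P := -1) (Q := -1) (by norm_num) (by norm_num)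
    rw [show (-1 : Polynomial ℤ) * -1 = 1 by ring, hh_one] at this
    linarith
  rw [show -P = (-1) * P by ring, hh_mul (by norm_num) hP, h1, zero_add]

theorem ww_neg (t d : ℝ) (P : Polynomial ℤ) : ww t d (-P) = ww t d P := by
  unfold ww
  rw [hh_neg, natDegree_neg]

theorem numer2 (p q : ℕ) (A Mf Mg μ : ℝ) (hp : 0 < p) (hq : 0 < q) (hA : 1 ≤ A) (hMf : 1 ≤ Mf)
    (hMg : 1 ≤ Mg)
    (h3 : (1 : ℝ) ≤ μ * (((p + q : ℕ) : ℝ) * A ^ (p + q) *
      ((2 ^ q * Mg) ^ p * (2 ^ p * Mf) ^ q))) :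
    Real.exp (-((4 + 2 * Real.log A) * (p * q + p * Real.log Mg + q * Real.log Mf))) ≤ μ := by
  have hlA : 0 ≤ Real.log A := Real.log_nonneg hA
  obtain ⟨K, hK⟩ : ∃ K, K = ((p + q : ℕ) : ℝ) * A ^ (p + q) *
    ((2 ^ q * Mg) ^ p * (2 ^ p * Mf) ^ q) := ⟨_, rfl⟩
  rw [← hK] at h3
  have hMf0 : 0 < Mf := by linarith
  have hMg0 : 0 < Mg := by linarith
  have hA0 : 0 < A := by linarith
  have hpq : (0 : ℝ) < ((p + q : ℕ) : ℝ) := by
    have : 0 < p + q := by omega
    exact_mod_cast this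
  have hKpos : 0 < K := by rw [hK]; positivity
  have hlogK : Real.log K = Real.log ((p + q : ℕ) : ℝ) + (p + q) * Real.log A +
      (p * (q * Real.log 2 + Real.log Mg) + q * (p * Real.log 2 + Real.log Mf)) := by
    rw [hK, Real.log_mul (by positivity) (by positivity), Real.log_mul (by positivity)
      (by positivity), Real.log_mul (by positivity) (by positivity), Real.log_pow, Real.log_pow,
      Real.log_pow, Real.log_mul (by positivity) (by positivity),
      Real.log_mul (by positivity) (by positivity), Real.log_pow, Real.log_pow]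
    push_cast
    ring
  have hp1 : (1 : ℝ) ≤ p := by exact_mod_cast hp
  have hq1 : (1 : ℝ) ≤ q := by exact_mod_cast hq
  have hlf0 : 0 ≤ Real.log Mf := Real.log_nonneg hMf
  have hlg0 : 0 ≤ Real.log Mg := Real.log_nonneg hMg
  have hl1 : Real.log ((p + q : ℕ) : ℝ) ≤ 2 * (p * q) := by
    refine (Real.log_le_sub_one_of_pos hpq).trans ?_
    push_cast
    nlinarith
  have hl2 : Real.log 2 ≤ 1 := by
    have := Real.log_two_lt_d9; linarith
  have h3' := h3
  clear hK h3
  generalize Real.log A = lA at *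
  generalize Real.log Mf = lf at *
  generalize Real.log Mg = lg at *
  generalize (p : ℝ) = x at *
  generalize (q : ℝ) = y at *
  have hlogK2 : Real.log K ≤ (4 + 2 * lA) * (x * y + x * lg + y * lf) := by
    rw [hlogK]
    have hpq2 : x + y ≤ 2 * (x * y) := by nlinarith
    have e1 : (x + y) * lA ≤ 2 * (x * y) * lA := mul_le_mul_of_nonneg_right hpq2 hlA
    have hxy : 0 ≤ x * y := by nlinarith
    have e2 : x * y * Real.log 2 ≤ x * y := by nlinarith
    have e3 : 0 ≤ x * lg := mul_nonneg (by linarith) hlg0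
    have e4 : 0 ≤ y * lf := mul_nonneg (by linarith) hlf0
    have e6 : (4 + 2 * lA) * (x * y + x * lg + y * lf) =
      4 * (x * y) + 2 * (x * y) * lA + (4 * (x * lg + y * lf) + 2 * (lA * (x * lg + y * lf))) := by
      ring
    rw [e6]
    have e7 : 0 ≤ lA * (x * lg + y * lf) := mul_nonneg hlA (by linarith)
    linarith
  have h5 : Real.exp (-Real.log K) ≤ μ := by
    rw [Real.exp_neg, Real.exp_log hKpos, inv_le_iff_one_le_mul₀ hKpos]
    exact h3'
  refine le_trans (Real.exp_le_exp.mpr ?_) h5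
  linarith

theorem coprime_bound2 (θ : ℂ) : ∃ C : ℝ, 0 ≤ C ∧ ∀ P Q : Polynomial ℤ,
    Irreducible P → Irreducible Q → ¬ Associated P Q → 0 < P.natDegree → 0 < Q.natDegree →
    Real.exp (-(C * (P.natDegree * Q.natDegree + P.natDegree * hh Q + Q.natDegree * hh P))) ≤
      max ‖aeval θ P‖ ‖aeval θ Q‖ := by
  set A := max 1 ‖θ‖ with hAdef
  have hA : (1 : ℝ) ≤ A := le_max_left _ _
  have hlA : 0 ≤ Real.log A := Real.log_nonneg hA
  refine ⟨4 + 2 * Real.log A, by positivity, fun P Q hP hQ hPQ hp hq => ?_⟩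
  have h1 := one_le_res P Q hP hQ hPQ hp hq
  unfold hh
  set f := P.map (Int.castRingHom ℂ) with hf
  set g := Q.map (Int.castRingHom ℂ) with hg
  have hfd : f.natDegree = P.natDegree := natDegree_map_eq_of_injective (RingHom.injective_int _) P
  have hgd : g.natDegree = Q.natDegree := natDegree_map_eq_of_injective (RingHom.injective_int _) Q
  have hfl := one_le_len P hP.ne_zero
  have hgl := one_le_len Q hQ.ne_zero
  rw [← hf] at hfl
  rw [← hg] at hgl
  have h2 := h1.trans (res_bound f g θ (hfd ▸ hp) (hgd ▸ hq) hfl hgl)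
  have hef : f.eval θ = aeval θ P := by
    rw [hf, eval_map, aeval_def]; congr 1
  have heg : g.eval θ = aeval θ Q := by
    rw [hg, eval_map, aeval_def]; congr 1
  rw [hfd, hgd, hef, heg] at h2
  have hMf : 1 ≤ f.mahlerMeasure := one_le_mahlerMeasure_of_ne_zero hP.ne_zero
  have hMg : 1 ≤ g.mahlerMeasure := one_le_mahlerMeasure_of_ne_zero hQ.ne_zero
  set p := P.natDegree with hpdef
  set q := Q.natDegree with hqdef
  set μ := max ‖aeval θ P‖ ‖aeval θ Q‖ with hμ
  have hμ0 : 0 ≤ μ := (norm_nonneg _).trans (le_max_left _ _)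
  have hlf : len f ≤ 2 ^ p * f.mahlerMeasure := by rw [← hfd]; exact len_le f
  have hlg : len g ≤ 2 ^ q * g.mahlerMeasure := by rw [← hgd]; exact len_le g
  set Mf := f.mahlerMeasure
  set Mg := g.mahlerMeasure
  have h3 : (1 : ℝ) ≤ μ * (((p + q : ℕ) : ℝ) * A ^ (p + q) *
      ((2 ^ q * Mg) ^ p * (2 ^ p * Mf) ^ q)) := by
    refine h2.trans ?_
    have h4 : len g ^ p * len f ^ q ≤ (2 ^ q * Mg) ^ p * (2 ^ p * Mf) ^ q := by
      have : 0 ≤ len g := by linarith
      have : 0 ≤ len f := by linarith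
      gcongr
    calc ((p + q : ℕ) : ℝ) * (μ * A ^ (p + q)) * (len g ^ p * len f ^ q)
        ≤ ((p + q : ℕ) : ℝ) * (μ * A ^ (p + q)) * ((2 ^ q * Mg) ^ p * (2 ^ p * Mf) ^ q) := by
          gcongr
      _ = _ := by ring
  exact numer2 p q A Mf Mg μ hp hq hA hMf hMg h3

theorem claim2 (θ : ℂ) (K t d : ℝ) (A : Polynomial ℤ) (hA : aeval θ A ≠ 0)
    (h : ∀ Q, Irreducible Q → Q ∣ A → -Real.log ‖aeval θ Q‖ ≤ K * ww t d Q) :
    -Real.log ‖aeval θ A‖ ≤ K * ww t d A := by
  induction A using WfDvdMonoid.induction_on_irreducible with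
  | zero => simp at hA
  | unit u hu =>
    rcases unit_cases hu with rfl | rfl
    · simp [ww_one]
    · rw [ww_neg, ww_one]
      simp
  | mul a i ha hi ih =>
    rw [map_mul] at hA
    have hi0 := left_ne_zero_of_mul hA
    have ha0 := right_ne_zero_of_mul hA
    have h1 := ih ha0 (fun Q hQ hd => h Q hQ (Dvd.dvd.mul_left hd i))
    have h2 := h i hi (dvd_mul_right i a)
    rw [map_mul, norm_mul, Real.log_mul (norm_ne_zero_iff.mpr hi0) (norm_ne_zero_iff.mpr ha0),
      ww_mul t d hi.ne_zero ha]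
    linarith

theorem hh_le {P : Polynomial ℤ} (hP : P ≠ 0) (D T : ℝ) (hD : 0 ≤ D)
    (hdeg : (P.natDegree : ℝ) ≤ D) (hht : ∀ i, |(P.coeff i : ℝ)| ≤ Real.exp T) :
    hh P ≤ D + T := by
  unfold hh
  have h1 : (P.map (Int.castRingHom ℂ)).mahlerMeasure ≤ (D + 1) * Real.exp T := by
    refine (mahlerMeasure_le_sum_norm_coeff _).trans ?_
    rw [Polynomial.sum_over_range _ (by simp)]
    have h2 : ∀ i ∈ Finset.range ((P.map (Int.castRingHom ℂ)).natDegree + 1),
        ‖(P.map (Int.castRingHom ℂ)).coeff i‖ ≤ Real.exp T := by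
      intro i _
      have := hht i
      simpa using this
    refine (Finset.sum_le_sum h2).trans ?_
    rw [Finset.sum_const, Finset.card_range, nsmul_eq_mul]
    apply mul_le_mul_of_nonneg_right _ (Real.exp_pos T).le
    have h3 : (P.map (Int.castRingHom ℂ)).natDegree ≤ P.natDegree := natDegree_map_le
    have h4 : ((P.map (Int.castRingHom ℂ)).natDegree : ℝ) ≤ P.natDegree := by exact_mod_cast h3
    push_cast
    linarith
  have h5 := mm_ge hP
  have h6 : Real.log (P.map (Int.castRingHom ℂ)).mahlerMeasure ≤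
      Real.log ((D + 1) * Real.exp T) := Real.log_le_log (by linarith) h1
  rw [Real.log_mul (by linarith) (Real.exp_pos T).ne', Real.log_exp] at h6
  have h7 : Real.log (D + 1) ≤ D + 1 - 1 := Real.log_le_sub_one_of_pos (by linarith)
  linarith

theorem gelfond_criterion2 (θ : ℂ) (δ τ : ℕ → ℝ) (a : ℝ)
    (hδ1 : ∀ n, 1 ≤ δ n) (hδτ : ∀ n, δ n ≤ τ n) (hmδ : Monotone δ) (hmτ : Monotone τ)
    (hτt : Tendsto τ atTop atTop)
    (hδa : ∀ n, δ (n + 1) ≤ a * δ n) (hτa : ∀ n, τ (n + 1) ≤ a * τ n)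
    (P : ℕ → Polynomial ℤ) (hdeg : ∀ n, ((P n).natDegree : ℝ) ≤ δ n)
    (hht : ∀ n i, |((P n).coeff i : ℝ)| ≤ Real.exp (τ n))
    (hne : ∀ n, aeval θ (P n) ≠ 0)
    (hsm : ∀ C : ℝ, ∀ᶠ n in atTop, ‖aeval θ (P n)‖ ≤ Real.exp (-C * (δ n * τ n))) : False := by
  obtain ⟨C, hC, hcop⟩ := coprime_bound2 θ
  have hτ1 : ∀ n, 1 ≤ τ n := fun n => (hδ1 n).trans (hδτ n)
  have ha : 1 ≤ a := by
    have h1 := hδa 0
    have h2 := hmδ (Nat.zero_le 1)
    have h3 := hδ1 0
    by_contra hlt
    push Not at hlt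
    nlinarith
  set K : ℝ := 3 * (a + 1) * C + 1 with hK
  have hK0 : 0 < K := by positivity
  have hP0 : ∀ n, P n ≠ 0 := by
    intro n h
    apply hne n
    rw [h, map_zero]
  have hhP : ∀ n, hh (P n) ≤ 2 * τ n := fun n => by
    have h1 := hh_le (hP0 n) (δ n) (τ n) (by linarith [hδ1 n]) (hdeg n) (hht n)
    linarith [hδτ n]
  have hwP : ∀ n, ww (τ n) (δ n) (P n) ≤ 3 * (δ n * τ n) := fun n => by
    unfold ww
    have h1 : τ n * (P n).natDegree ≤ τ n * δ n :=
      mul_le_mul_of_nonneg_left (hdeg n) (by linarith [hτ1 n])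
    have h2 : δ n * hh (P n) ≤ δ n * (2 * τ n) :=
      mul_le_mul_of_nonneg_left (hhP n) (by linarith [hδ1 n])
    linarith
  -- the irreducible factors
  have hQ : ∀ᶠ n in atTop, ∃ Q : Polynomial ℤ, Irreducible Q ∧ Q ∣ P n ∧ 0 < Q.natDegree ∧
      (Q.natDegree : ℝ) ≤ δ n ∧ hh Q ≤ 2 * τ n ∧
      ‖aeval θ Q‖ < Real.exp (-(K * ww (τ n) (δ n) Q)) ∧ aeval θ Q ≠ 0 := by
    filter_upwards [hsm (4 * K)] with n hn
    by_contra hcon
    push Not at hcon
    have hδn := hδ1 n
    have hτn := hτ1 n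
    have hall : ∀ Q, Irreducible Q → Q ∣ P n →
        -Real.log ‖aeval θ Q‖ ≤ K * ww (τ n) (δ n) Q := by
      intro Q hQi hQd
      obtain ⟨R, hR⟩ := hQd
      have hQ0 : Q ≠ 0 := hQi.ne_zero
      have hR0 : R ≠ 0 := by
        rintro rfl
        apply hP0 n
        rw [hR, mul_zero]
      have hev : aeval θ Q ≠ 0 := by
        intro h
        apply hne n
        rw [hR, map_mul, h, zero_mul]
      by_cases hd : 0 < Q.natDegree
      · by_contra hlt
        push Not at hlt
        have hs1 : (Q.natDegree : ℝ) ≤ δ n := by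
          refine le_trans ?_ (hdeg n)
          rw [hR, natDegree_mul hQ0 hR0]
          push_cast
          linarith [Nat.cast_nonneg (α := ℝ) R.natDegree]
        have hs2 : hh Q ≤ 2 * τ n := by
          have h1 := hhP n
          rw [hR, hh_mul hQ0 hR0] at h1
          linarith [hh_nonneg hR0]
        apply hev
        apply hcon Q hQi ⟨R, hR⟩ hd hs1 hs2
        rw [← Real.log_lt_iff_lt_exp (norm_pos_iff.mpr hev)]
        linarith
      · have hd0 : Q.natDegree = 0 := by omega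
        obtain ⟨c, rfl⟩ : ∃ c, Q = Polynomial.C c := ⟨_, eq_C_of_natDegree_eq_zero hd0⟩
        have hc : c ≠ 0 := by
          rintro rfl
          simp at hQ0
        have h1 : (1 : ℝ) ≤ ‖(aeval θ (Polynomial.C c) : ℂ)‖ := by
          rw [aeval_C]
          simp only [algebraMap_int_eq, eq_intCast, Complex.norm_intCast]
          exact_mod_cast Int.one_le_abs hc
        have h2 := Real.log_nonneg h1
        have h3 : 0 ≤ K * ww (τ n) (δ n) (Polynomial.C c) :=
          mul_nonneg hK0.le (ww_nonneg (by linarith) (by linarith) hQ0)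
        linarith
    have h1 := claim2 θ K (τ n) (δ n) (P n) (hne n) hall
    have h2 : Real.log ‖aeval θ (P n)‖ ≤ -(4 * K) * (δ n * τ n) := by
      rw [Real.log_le_iff_le_exp (norm_pos_iff.mpr (hne n))]
      exact hn
    have h5 : K * ww (τ n) (δ n) (P n) ≤ K * (3 * (δ n * τ n)) :=
      mul_le_mul_of_nonneg_left (hwP n) hK0.le
    have h6 : 0 < K * (δ n * τ n) := by positivity
    nlinarith
  obtain ⟨n0, hn0⟩ := eventually_atTop.mp hQ
  choose! Q hQi hQd hQn hQδ hQh hQl hQv using hn0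
  have hstep : ∀ n, n0 ≤ n → Associated (Q n) (Q (n + 1)) := by
    intro n hn
    by_contra hna
    have hn' : n0 ≤ n + 1 := by omega
    have h1 := hcop (Q n) (Q (n + 1)) (hQi n hn) (hQi _ hn') hna (hQn n hn) (hQn _ hn')
    have t1 := hδ1 n
    have t2 := hδ1 (n + 1)
    have u1 := hτ1 n
    have u2 := hτ1 (n + 1)
    have l1 := hQl n hn
    have l2 := hQl _ hn'
    have p0 : (0 : ℝ) ≤ (Q n).natDegree := Nat.cast_nonneg _
    have q0 : (0 : ℝ) ≤ (Q (n + 1)).natDegree := Nat.cast_nonneg _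
    have h0 := hh_nonneg (hQi n hn).ne_zero
    have h0' := hh_nonneg (hQi _ hn').ne_zero
    have p1 := hQδ n hn
    have q1 := hQδ _ hn'
    have g1 := hQh n hn
    have g2 := hQh _ hn'
    have d1 := hδa n
    have d2 := hτa n
    have m1 : δ n ≤ δ (n + 1) := hmδ (Nat.le_succ n)
    have m2 : τ n ≤ τ (n + 1) := hmτ (Nat.le_succ n)
    have s1 := hδτ n
    have s2 := hδτ (n + 1)
    set x : ℝ := ((Q n).natDegree : ℝ) with hx
    set y : ℝ := ((Q (n + 1)).natDegree : ℝ) with hy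
    set lf := hh (Q n) with hlf
    set lg := hh (Q (n + 1)) with hlg
    set S := x * y + x * lg + y * lf with hS
    have hS0 : 0 ≤ S := by positivity
    have k1 : S ≤ 3 * a * ww (τ n) (δ n) (Q n) := by
      unfold ww
      rw [← hx, ← hlf]
      have e1 : x * y ≤ x * (a * τ n) := by
        refine mul_le_mul_of_nonneg_left ?_ p0
        have : a * δ n ≤ a * τ n := mul_le_mul_of_nonneg_left s1 (by linarith)
        linarith
      have e2 : x * lg ≤ x * (2 * (a * τ n)) := mul_le_mul_of_nonneg_left (by linarith) p0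
      have e3 : y * lf ≤ (a * δ n) * lf := mul_le_mul_of_nonneg_right (by linarith) h0
      have e4 : 0 ≤ a * (δ n * lf) := by positivity
      have e5 : 3 * a * (τ n * x + δ n * lf) = x * (a * τ n) + x * (2 * (a * τ n)) +
        (a * δ n) * lf + 2 * (a * (δ n * lf)) := by ring
      rw [e5, hS]
      linarith
    have k2 : S ≤ 3 * ww (τ (n + 1)) (δ (n + 1)) (Q (n + 1)) := by
      unfold ww
      rw [← hy, ← hlg]
      have e1 : x * y ≤ τ (n + 1) * y := mul_le_mul_of_nonneg_right (by linarith) q0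
      have e2 : x * lg ≤ δ (n + 1) * lg := mul_le_mul_of_nonneg_right (by linarith) h0'
      have e3 : y * lf ≤ y * (2 * τ (n + 1)) := mul_le_mul_of_nonneg_left (by linarith) q0
      have e4 : 0 ≤ δ (n + 1) * lg := by positivity
      rw [hS]
      linarith
    have w1 : 0 ≤ ww (τ n) (δ n) (Q n) :=
      ww_nonneg (by linarith) (by linarith) (hQi n hn).ne_zero
    have w2 : 0 ≤ ww (τ (n + 1)) (δ (n + 1)) (Q (n + 1)) :=
      ww_nonneg (by linarith) (by linarith) (hQi _ hn').ne_zero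
    have j1 : C * S ≤ K * ww (τ n) (δ n) (Q n) := by
      calc C * S ≤ C * (3 * a * ww (τ n) (δ n) (Q n)) := mul_le_mul_of_nonneg_left k1 hC
        _ = (3 * a * C) * ww (τ n) (δ n) (Q n) := by ring
        _ ≤ K * ww (τ n) (δ n) (Q n) := by
          apply mul_le_mul_of_nonneg_right _ w1
          rw [hK]
          nlinarith
    have j2 : C * S ≤ K * ww (τ (n + 1)) (δ (n + 1)) (Q (n + 1)) := by
      calc C * S ≤ C * (3 * ww (τ (n + 1)) (δ (n + 1)) (Q (n + 1))) :=
            mul_le_mul_of_nonneg_left k2 hC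
        _ = (3 * C) * ww (τ (n + 1)) (δ (n + 1)) (Q (n + 1)) := by ring
        _ ≤ K * ww (τ (n + 1)) (δ (n + 1)) (Q (n + 1)) := by
          apply mul_le_mul_of_nonneg_right _ w2
          rw [hK]
          nlinarith
    have m1 : ‖aeval θ (Q n)‖ < Real.exp (-(C * S)) :=
      lt_of_lt_of_le l1 (Real.exp_le_exp.mpr (by linarith))
    have m2 : ‖aeval θ (Q (n + 1))‖ < Real.exp (-(C * S)) :=
      lt_of_lt_of_le l2 (Real.exp_le_exp.mpr (by linarith))
    have := max_lt m1 m2
    linarith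
  have hall : ∀ n, n0 ≤ n → Associated (Q n0) (Q n) := by
    intro n hn
    induction n, hn using Nat.le_induction with
    | base => exact Associated.refl _
    | succ n hn ih => exact ih.trans (hstep n hn)
  have hsmall : ∀ n, n0 ≤ n → ‖aeval θ (Q n0)‖ ≤ Real.exp (-(K * τ n)) := by
    intro n hn
    have h1 := hQl n hn
    have h2 : ‖aeval θ (Q n)‖ = ‖aeval θ (Q n0)‖ := by
      rcases assoc_cases (hall n hn) with h | h
      · rw [h]
      · rw [h, map_neg, norm_neg]
    rw [h2] at h1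
    refine h1.le.trans (Real.exp_le_exp.mpr ?_)
    have s1 : τ n ≤ ww (τ n) (δ n) (Q n) := by
      unfold ww
      have h3 : (1 : ℝ) ≤ (Q n).natDegree := by exact_mod_cast hQn n hn
      have h4 : τ n * 1 ≤ τ n * (Q n).natDegree :=
        mul_le_mul_of_nonneg_left h3 (by linarith [hτ1 n])
      have h5 : 0 ≤ δ n * hh (Q n) :=
        mul_nonneg (by linarith [hδ1 n]) (hh_nonneg (hQi n hn).ne_zero)
      linarith
    have : K * τ n ≤ K * ww (τ n) (δ n) (Q n) := mul_le_mul_of_nonneg_left s1 hK0.le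
    linarith
  have hlim : Tendsto (fun n => Real.exp (-(K * τ n))) atTop (nhds 0) := by
    apply Real.tendsto_exp_neg_atTop_nhds_zero.comp
    exact hτt.const_mul_atTop hK0
  have : ‖aeval θ (Q n0)‖ ≤ 0 :=
    ge_of_tendsto hlim (eventually_atTop.mpr ⟨n0, hsmall⟩)
  exact hQv n0 le_rfl (norm_le_zero_iff.mp this)

end Pool.Agent.W376.GelA
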